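import Pool.Agent.X264.HN.Main

/-!
# The noncommutative Hodge conjecture: coprime powers and endomorphisms

`C` is an additive rigid symmetric monoidal category with a symmetric monoidal additive functor `R` to
finite dimensional super vector spaces over a field `K` of characteristic zero, and with spaces of
Hodge classes on the realisations which are compatible with morphisms and products and on which the
duality pairings are nondegenerate. For the problem `C` is the category of noncommutative motives of
admissible subcategories `𝒞` of the categories of perfect complexes on smooth proper complex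
varieties (morphisms are the rational `K_0` of the products), `K = ℚ`, `R` is topological K-theory with
rational coefficients and the Hodge classes are the rational Hodge classes; the pairings are
nondegenerate since the Hodge structures are polarisable. The dual of the motive of `𝒞` is the motive
of the opposite category.

Theorem. Let `X` be an object of `C`.
(1) If the Hodge conjecture holds for `X ⊗ Xᘁ`, that is, for the endomorphisms of `X`, then it holds
for `X` or all classes of morphisms from the unit to `X` vanish.
(2) If the Hodge conjecture holds for `X ^ n` and for the dual of `X ^ m`, where `n > 0` and `m` are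
coprime, then it holds for `X`.
(3) If the Hodge conjecture holds for `X ⊗ Xᘁ`, if `x` is a nonzero element of the realisation of `X`
with algebraic power `x ^ n` and if some morphism from `X ^ m` to the unit maps `x ^ m` to `1`, where
`n > 0` and `m` are coprime, then the Hodge conjecture holds for `X`.
-/

set_option autoImplicit false

open CategoryTheory Limits MonoidalCategory

namespace Pool.Agent.Results.MP_43e44c_ag.CoprimePowers

open Pool.Agent.Y112.SR Pool.Agent.Y112.KD Pool.Agent.X264.DN Pool.Agent.X264.WN
  Pool.Agent.X264.HN

universe v u w

theorem result {C : Type u} [Category.{v} C] [Preadditive C] [MonoidalCategory C]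
    [SymmetricCategory C] [RightRigidCategory C] {K : Type w} [Field K] [CharZero K]
    (R : SuperRealisation C K) (T : HodgeClasses R) (X : C) :
    (AllAlgebraic T (X ⊗ Xᘁ) → AllAlgebraic T X ∨ ∀ f : 𝟙_ C ⟶ X, cl R f = 0) ∧
    (∀ n m : ℕ, 0 < n → Nat.Coprime n m → AllAlgebraic T (tp X n) → AllAlgebraic T (tp X m)ᘁ →
      AllAlgebraic T X) ∧
    (AllAlgebraic T (X ⊗ Xᘁ) → ∀ (x : Sp R X) (n m : ℕ), x ≠ 0 → 0 < n → Nat.Coprime n m →
      (∃ f : 𝟙_ C ⟶ tp X n, cl R f = pw x n) →
      (∃ φ : tp X m ⟶ 𝟙_ C, op R φ (pw x m) = unitClass R) → AllAlgebraic T X) := by
  refine ⟨fun h => ?_, fun n m hn hnm h1 h2 => coprime_powers T hn hnm h1 h2,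
    fun h x n m h0 hn hnm h1 h2 => coprime_class T h0 hn hnm h1 h2 h⟩
  by_cases h0 : ∃ f : 𝟙_ C ⟶ X, cl R f ≠ 0
  · exact Or.inl (dichotomy T h h0)
  · right
    intro f
    by_contra hf
    exact h0 ⟨f, hf⟩

end Pool.Agent.Results.MP_43e44c_ag.CoprimePowers
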