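import Pool.Agent.X297.CM.Growth

/-!
# The noncommutative Hodge conjecture for the powers of a variety of CM type: the growth law

Let `X` be a smooth projective complex variety of CM type (its Mumford-Tate group is commutative), for
instance any complex abelian variety with complex multiplication, simple or not, a Fermat
hypersurface, or a product of such varieties. Let `C = D^perf(X)`, so
`C ^ {⊠ (n + 1)} = D^perf(X ^ (n + 1))`. Let `b = ∑ dim H^i(X)`, and let `r` be the dimension of the
Hodge group of `X`, which is here the rank of the group generated by the functions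
`s ↦ p(s) - q(s)`, where the `(p(s), q(s))` are the types of the conjugates, under the automorphisms
`s` of `ℂ`, of an eigenvector in `H(X, ℚ) ⊗ ℂ`. Let `t n` be the dimension of
`Hdg(C ^ {⊠ (n + 1)}, ℚ)`, that is, the number of linearly independent rational Hodge classes, of all
degrees, on `X ^ (n + 1)`, and `a n` the rank of the numerical Grothendieck group of
`C ^ {⊠ (n + 1)}`, that is, the rank of the group of all algebraic cycles on `X ^ (n + 1)` modulo
numerical equivalence. Then there are a real number `C > 0` and `N ∈ {1, 2, …, ∞}` with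

`t n ∼ C b ^ (n + 1) / (n + 1) ^ (r / 2)`,  `a n * (n + 1) ^ (r / 2) / b ^ (n + 1) ⟶ C / N`,

and `N = 1` if and only if the Hodge conjecture holds for all powers of `X` in all degrees, that is, if
and only if the noncommutative Hodge conjecture holds for all admissible subcategories of the
categories `D^perf(X ^ n)`.
-/

open CategoryTheory AlgebraicGeometry Filter Topology

open scoped ENNReal

universe u v w

namespace Pool.Agent.Results.MP_43e44c_ag.GrowthLawCM

open Pool.Agent.H914 Pool.Agent.H914.VarClass Pool.Agent.H914.VarClass.Obj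
  Pool.Agent.H914.WeilCohomology Pool.Agent.X297.CM
open Pool.Agent.Y129 (pw)
open Pool.Agent.Y133.Half (cycRank)

theorem result {k : Type u} [Field k] {𝒱 : VarClass k} {ops : CycleOps 𝒱}
    (W : WeilCohomology.{u, v} ops) {Γ : Type w} [Group Γ] (D : Decomposition W)
    (A : CoeffAction W Γ) (X : 𝒱.Obj) (hX : IsCMType D A X) [Nontrivial (W.H X)] {b r : ℕ}
    (hb : b = Module.finrank W.K (W.H X)) (hr : r = hodgeRank D A X) :
    ∃ (C : ℝ) (N : ℕ∞), 0 < C ∧ 1 ≤ N ∧
      Tendsto (scaled b r fun n => hodgeDim D A (pw X n)) atTop (𝓝 C) ∧
      Tendsto (scaled b r fun n => cycRank ops (pw X n)) atTop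
        (𝓝 (C * ((N : ℝ≥0∞)⁻¹).toReal)) ∧
      (N = 1 ↔ ∀ n j, HodgeConj D A (pw X n) j) :=
  growth hX hb hr

end Pool.Agent.Results.MP_43e44c_ag.GrowthLawCM
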