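import Mathlib
import Pool.Agent.X311.Cy5

/-!
# The noncommutative Hodge conjecture for powers of a variety of Calabi-Yau type times any category

Let `X` be a smooth projective variety such that the rational cohomology of `X` is spanned by algebraic
classes and by the cohomology `T` of one odd degree, of dimension `n`, which is a Hodge structure of
Calabi-Yau type: for an odd number `d` its classes are sums of classes of types `(p, q)` with
`|p - q| ≤ d`, and the classes with `p - q = d` form a line, spanned by `ω`. Examples are Calabi-Yau
varieties of odd dimension `d` whose other cohomology is algebraic (all Calabi-Yau threefolds) and Fano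
varieties of Calabi-Yau type, for example cubic sevenfolds (`d = 3`, `n = 170`), where `T` is the
cohomology of a noncommutative Calabi-Yau variety of dimension `3`, the Kuznetsov component of `X`.

Let `ω` be normalized such that one of its coordinates in a rational basis is `1`; the other coordinates
are the periods. Let `K` be any field of complex numbers, and suppose that `D` of the periods are
algebraically independent over `K`, with `2 D > n - 2`. (For countable `K` this holds, even with
`D = n - 1`, for the very general member of each family with monodromy Zariski dense in the symplectic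
group, since the Zariski closure of the image of the period map is stable under the monodromy.)

Let `Y` be ANY smooth projective variety which is of CM type or whose Hodge filtration is defined over
`K` (any variety over a number field if `K` contains the algebraic numbers and its periods), and `C` an
admissible subcategory of `D^perf(Y)`.

**Theorem.** Let `C'` be an admissible subcategory of `D^perf(X ^ m) ⊠ C` (for example `D^perf(X ^ m) ⊠ C`
itself, the admissible subcategories of `D^perf(X ^ m × Y)` if `C = D^perf(Y)`, the products of `m`
Kuznetsov components of `X` with `C`, and the symmetric and exterior powers in the sense of idempotents).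
Then the Hodge classes of `C'` are the projections to `C'` of the linear combinations of the products of

* algebraic classes on some of the factors `X`;
* the middle components of the diagonals on pairs of other factors `X`;
* a Hodge class of `C`.

These components are algebraic (they are polynomials in algebraic correspondences), so the noncommutative
Hodge conjecture for `C` implies the noncommutative Hodge conjecture for all `C'`, for all `m`. There
is no condition on the Hodge group, the endomorphisms or the Hodge numbers of `X`.

The proof. Let `t` be a Hodge class on `X ^ m × Y`, and let `L` be the complex Lie algebra of the matrices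
in the symplectic Lie algebra of `T` which kill `t` when they act on the factors `X` (and trivially on
`Y`). It is stable under all automorphisms of the complex numbers since `t` is rational. A derivation of
the complex numbers over `K` can be applied to the equation which says that `t` is a Hodge class; the
iterated commutators of the result with the Hodge operator isolate the components which raise `p - q`
and `Y` does not contribute to these since the derivation preserves its Hodge filtration. The
`D` independent periods give `D` independent vectors in this way, and `L` contains elements of rank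
at most two attached to them. By explicit brackets, and since `2 D > n - 2`, `L` is the full symplectic
Lie algebra. The first fundamental theorem for the symplectic group (with values in the Hodge classes of
`Y`) finishes the proof.
-/

namespace Pool.Agent.Results.MP_43e44c_ag.OddCalabiYauTimesVariety

open Pool.Agent.TH131.GHC Pool.Agent.TH504.VY Pool.Agent.X311 Pool.Agent.X311.CY

noncomputable section

/-- The projector `P` of an admissible subcategory: the projection functor is a Fourier-Mukai functor, so
it acts on the rational cohomology by an idempotent `P` which maps the Hodge classes to Hodge classes.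
The topological K-theory of the subcategory is the range of `P`. -/
def IsProjector {M : Type} [AddCommGroup M] [Module ℚ M] (IsHodge : M → Prop)
    (P : M →ₗ[ℚ] M) : Prop :=
  (∀ t, P (P t) = P t) ∧ ∀ t, IsHodge t → IsHodge (P t)

/-- The Hodge classes of the subcategory with the projector `P`. -/
def IsHodgeIn {M : Type} [AddCommGroup M] [Module ℚ M] (IsHodge : M → Prop) (P : M →ₗ[ℚ] M)
    (t : M) : Prop :=
  IsHodge t ∧ P t = t

/-- The subcategory with the projector `P` is contained in the product of `D^perf(X ^ m)` and the
subcategory of `D^perf(Y)` with the projector `e`: so this holds for the classes. -/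
def IsContainedIn {n s v m : ℕ} (P : ((Fin m → Fin s ⊕ Fin n) → Fin v → ℚ) →ₗ[ℚ]
    ((Fin m → Fin s ⊕ Fin n) → Fin v → ℚ)) (e : (Fin v → ℚ) →ₗ[ℚ] (Fin v → ℚ)) : Prop :=
  ∀ t J, e (P t J) = P t J

/-- The span of the products of standard classes on `X ^ m` (products of algebraic classes on some of
the factors and of middle components of diagonals on pairs of other factors) and classes in `S`. -/
def standardTimes {n : ℕ} (T : Period n) (s m : ℕ) {v : ℕ} (S : Set (Fin v → ℚ)) :
    Submodule ℚ ((Fin m → Fin s ⊕ Fin n) → Fin v → ℚ) :=
  Submodule.span ℚ {t | ∃ (a b : ℕ) (e : Fin a ⊕ (Fin b × Fin 2) ≃ Fin m)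
    (ν : Fin a → Fin s → ℚ) (y : Fin v → ℚ), y ∈ S ∧ t = fun J b => standardClass T e ν J * y b}

/-- **The noncommutative Hodge conjecture for powers of a variety of Calabi-Yau type times a category.**
Let `T` be the cohomology of dimension `n` of a variety `X` of Calabi-Yau type of odd dimension, with
one coordinate of the period equal to `1` and `D` coordinates algebraically independent over the field
`K` of complex numbers, `2 D > n - 2`. Let `Y` be a variety of CM type or with Hodge filtration over
`K`, and `C` an admissible subcategory of `D^perf(Y)`. Then the Hodge classes of each admissible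
subcategory `C'` of `D^perf(X ^ m) ⊠ C` are the projections of the combinations of products of standard
classes on `X ^ m` and Hodge classes of `C`; they are algebraic if the Hodge classes of `C` are. -/
theorem result {n : ℕ} (T : Period n) {i₀ : Fin n} (h0 : T.ω i₀ = 1)
    (K : Subfield ℂ) {D : ℕ} (p : Fin D → Fin n)
    (hp : AlgebraicIndependent K fun i => T.ω (p i)) (hD : n < 2 * D + 2)
    {v : ℕ} (V : Coh v) (hV : IsOfCMType V ∨ HasFiltrationOver K V) (s m : ℕ)
    (e : (Fin v → ℚ) →ₗ[ℚ] (Fin v → ℚ)) (he : IsProjector (IsHodgeOn V) e)
    (P : ((Fin m → Fin s ⊕ Fin n) → Fin v → ℚ) →ₗ[ℚ] ((Fin m → Fin s ⊕ Fin n) → Fin v → ℚ))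
    (hP : IsProjector (IsHodgeOnProduct T V) P) (hPe : IsContainedIn P e) :
    (∀ t, IsHodgeIn (IsHodgeOnProduct T V) P t ↔
      t ∈ (standardTimes T s m {y | IsHodgeIn (IsHodgeOn V) e y}).map P) ∧
    ∀ (AlgY : Submodule ℚ (Fin v → ℚ))
      (Alg : Submodule ℚ ((Fin m → Fin s ⊕ Fin n) → Fin v → ℚ)),
      standardTimes T s m AlgY ≤ Alg → (∀ y, IsHodgeIn (IsHodgeOn V) e y → y ∈ AlgY) →
        ∀ t, IsHodgeIn (IsHodgeOnProduct T V) P t → t ∈ Alg.map P := by
  have key : ∀ t, IsHodgeIn (IsHodgeOnProduct T V) P t →
      t ∈ standardTimes T s m {y | IsHodgeIn (IsHodgeOn V) e y} := by
    rintro t ⟨h1, h2⟩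
    have h3 : t ∈ standardTimesHodge T s m V := (hodge_iff hV h0 p hp hD t).1 h1
    let E : ((Fin m → Fin s ⊕ Fin n) → Fin v → ℚ) →ₗ[ℚ] ((Fin m → Fin s ⊕ Fin n) → Fin v → ℚ) :=
      { toFun := fun t J => e (t J)
        map_add' := fun x y => by
          funext J
          exact e.map_add (x J) (y J)
        map_smul' := fun c x => by
          funext J
          exact e.map_smul c (x J) }
    have h4 : E t = t := by
      funext J
      have h5 := hPe t J
      rw [h2] at h5
      exact h5
    have h5 : standardTimesHodge T s m V ≤
        (standardTimes T s m {y | IsHodgeIn (IsHodgeOn V) e y}).comap E := by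
      refine Submodule.span_le.2 ?_
      rintro t ⟨a, b, e', ν, y, hy, rfl⟩
      refine Submodule.subset_span ⟨a, b, e', ν, e y, ⟨he.2 y hy, he.1 y⟩, ?_⟩
      funext J
      have h6 : (fun b => standardClass T e' ν J * y b) = standardClass T e' ν J • y := rfl
      show e (fun b => standardClass T e' ν J * y b) = fun b => standardClass T e' ν J * e y b
      rw [h6, e.map_smul]
      rfl
    rw [← h4]
    exact h5 h3
  refine ⟨fun t => ⟨fun h => ?_, ?_⟩, ?_⟩
  · exact ⟨t, key t h, h.2⟩
  · rintro ⟨t', ht', rfl⟩
    refine ⟨hP.2 t' ?_, hP.1 t'⟩
    refine (hodge_iff hV h0 p hp hD t').2 ?_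
    refine (Submodule.span_mono ?_) ht'
    rintro _ ⟨a, b, e', ν, y, hy, rfl⟩
    exact ⟨a, b, e', ν, y, hy.1, rfl⟩
  · intro AlgY Alg h1 h2 t ht
    refine ⟨t, h1 ?_, ht.2⟩
    refine (Submodule.span_mono ?_) (key t ht)
    rintro _ ⟨a, b, e', ν, y, hy, rfl⟩
    exact ⟨a, b, e', ν, y, h2 y hy, rfl⟩

end

end Pool.Agent.Results.MP_43e44c_ag.OddCalabiYauTimesVariety
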