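import Pool.Agent.X227.NP.Main

/-!
# The noncommutative Hodge conjecture for `D(P) ⊠ 𝒞`, `P` a product of powers of varieties of
# symplectic type

Let `W` be the cohomology of smooth projective complex varieties with coefficients in `ℂ`, with the
rational Hodge structures (`HodgeData`; any Weil cohomology theory with algebraically closed
coefficients and rational Hodge structures is allowed; the rational classes are the classes which are
fixed by the action of the automorphisms of the coefficients).

Let `Z` be a smooth projective variety and `𝒞 ⊂ D(Z)` an admissible subcategory. The projection
functor onto `𝒞` gives an idempotent `e` in the ring `K_0(Z × Z)_ℚ`, which is identified with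
`CH(Z × Z)_ℚ` (all degrees together) by the Chern character multiplied by the square root of the Todd
class. Here only its cohomology class is used, which is the class of a cycle of mixed codimension on
`Z × Z` such that the operator `selfOp e : y ↦ pr_2_* (e * pr_1^* y)` on `H(Z)` is idempotent
(`Projector`); `K_0^top(𝒞)_ℚ` is the part of the rational even cohomology of `Z` which is fixed by it,
with the Hodge structure of weight zero on `⨁ H^(2 j)(Z)(j)`. More generally `𝒞` can be any smooth
proper dg category whose noncommutative motive is a direct summand of the one of `Z`. For a product `P`
of varieties `X i`, `i` in the list `L` (`prodList X Z L` is `P × Z`), the category `D(P) ⊠ 𝒞` is an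
admissible subcategory of `D(P × Z)` with the idempotent `1 × e`, and `timesOp X e L` is the operator
of the correspondence `1 × e` on `H(P × Z)`. So `NCHodge` is the statement of the problem for
`D(P) ⊠ 𝒞`: each rational Hodge class in `K_0^top(D(P) ⊠ 𝒞)_ℚ`, that is each sum of rational Hodge
classes of degrees `(j, j)` on `P × Z` which is fixed by `1 × e`, is in the image of `K_0`. For
`e = 1` it is the Hodge conjecture for `P × Z`.

Let `X i` be any family of varieties (`SpFamily`), which may be infinite: `X i` is odd-dimensional,
homological and numerical equivalence coincide on `X i`, the transcendental cohomology `T i` (the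
orthogonal complement of all algebraic classes) is in the middle degree, the Mumford-Tate group acts
irreducibly on the Lie algebra of the operators on `T i` which are skew for the intersection form, and
these adjoint representations are pairwise not isomorphic. Examples: very general curves,
hypersurfaces and complete intersections of odd dimension. Let `Z` be ANY variety.

(1) There is a finite set `B` of indices with `∑ dim T i ≤ dim H(Z)`, none of them separated from `Z`
by Hodge types, such that for EVERY admissible subcategory `𝒞` of `D(Z)` and all products `P` of
powers of the `X i`: the noncommutative Hodge conjecture holds for `D(P) ⊠ 𝒞` if and only if it holds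
for `D(P') ⊠ 𝒞` for the subproducts `P'` of `P` with `i ∈ B` which are small (`SmallHodge`): for
some degree `m` of the right parity the product of the numbers (exponent of `X i`) + 1 and the sum of
the `dim T i`, over the `i` which occur, are at most the Betti number `b_m(Z)`, and the sum of the
numbers `min |p - q|`, over the Hodge types `(p, q)` of the `T i`, is at most `m` and `2 dim Z - m`.
So for given `𝒞` finitely many products decide for infinitely many.

(2) If all `X i` are separated from `Z` by Hodge types (`TypeSep`: the cohomology of `Z` is generated
by pieces of width at most `N`, and `T i` has a Hodge type `(p, q)` with `p - q > N`; `N = 1` if `Z` is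
an abelian variety or a product of curves, `N = dim Z` is always possible) then for every admissible
subcategory `𝒞` of the derived category of any power of `Z` (for instance a tensor power of an
admissible subcategory of `D(Z)`) the noncommutative Hodge conjecture for `D(P) ⊠ 𝒞` is
equivalent to the one for `𝒞`, for all products `P` of powers of the `X i`. For instance let `𝒞` be
the K3 category of a cubic fourfold `Z`: the conjecture for `𝒞` follows from the theorem of Zucker, so
it holds for `D(P) ⊠ 𝒞` if the `X i` have transcendental Hodge numbers with `p - q > 2`, for
instance for very general odd-dimensional Calabi-Yau complete intersections of dimension at least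
three.

The idea of the proof: let `F` be a Hodge class fixed by `1 × e`. Its components in the tensor
factors `T i` are functions with values in `H(Z)`. The contraction of two factors by the intersection
form is given by algebraic correspondences which commute with `1 × e`, although `e` is not
homogeneous. So by induction the contractions of a minimal non-algebraic `F` are algebraic, and `F` can
be changed by an algebraic class fixed by `1 × e` to be traceless; and then the traceless parts of
the tensor powers of the `T i`, on which the Mumford-Tate group acts through a large symplectic group,
occur in a twist of `H(Z)`, which gives the bounds. Finally the coefficients are descended to the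
rational numbers.
-/

open CategoryTheory AlgebraicGeometry

universe u

namespace Pool.Agent.Results.MP_43e44c_ag.TimesSymplecticType

open Pool.Agent.H914 Pool.Agent.H914.VarClass Pool.Agent.H914.VarClass.Obj Pool.Agent.Y132.AH
  Pool.Agent.X227.NP

variable {k : Type u} [Field k] {𝒱 : VarClass k} {ops : CycleOps 𝒱}

theorem result (W : WeilCohomology.{u, 0} ops) [IsAlgClosed W.K] (Ψ : HodgeData W)
    {ι : Type} [DecidableEq ι] (X : ι → 𝒱.Obj) (hX : SpFamily Ψ X) (Z : 𝒱.Obj) :
    (∃ B : Finset ι, ∑ i ∈ B, trDim W (X i) ≤ totDim W Z ∧ (∀ i ∈ B, ¬TypeSep Ψ (X i) Z) ∧
      ∀ e : W.H (Z.prod Z), Projector Z e → ∀ L : List ι,
        (NCHodge Ψ (prodList X Z L) (timesOp X e L) ↔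
          ∀ L' : List ι, L'.Sublist L → SmallHodge Ψ X Z B L' →
            NCHodge Ψ (prodList X Z L') (timesOp X e L'))) ∧
    ((∀ i, TypeSep Ψ (X i) Z) → ∀ (n : ℕ) (e : W.H ((powN Z n).prod (powN Z n))),
      Projector (powN Z n) e → ∀ L : List ι,
        (NCHodge Ψ (prodList X (powN Z n) L) (timesOp X e L) ↔
          NCHodge Ψ (powN Z n) (selfOp e))) :=
  ⟨h_general Ψ Z hX, fun h n e he L => h_separated Ψ Z hX h n e he L⟩

end Pool.Agent.Results.MP_43e44c_ag.TimesSymplecticType
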